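import Mathlib

/-!
# Rounding lemma (R) of note 2869

`avg S f` = mean of `f` on the finset `S`. `rosenthal`: moments of a sum of independent
non-negative variables. `rounding`: simultaneous choice.
-/

namespace Pool.Agent.H15.FK

open Finset

variable {ι K Ω : Type}

/-- the mean value -/
noncomputable def avg {A : Type} (S : Finset A) (f : A → ℝ) : ℝ := (∑ x ∈ S, f x) / (S.card : ℝ)

theorem avg_nonneg {A : Type} {S : Finset A} {f : A → ℝ} (h : ∀ x ∈ S, 0 ≤ f x) : 0 ≤ avg S f :=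
  div_nonneg (sum_nonneg h) (Nat.cast_nonneg _)

theorem avg_mono {A : Type} {S : Finset A} {f g : A → ℝ} (h : ∀ x ∈ S, f x ≤ g x) :
    avg S f ≤ avg S g :=
  div_le_div_of_nonneg_right (sum_le_sum h) (Nat.cast_nonneg _)

theorem avg_add {A : Type} (S : Finset A) (f g : A → ℝ) :
    avg S (fun x => f x + g x) = avg S f + avg S g := by
  unfold avg
  rw [sum_add_distrib, add_div]

theorem avg_mul {A : Type} (S : Finset A) (c : ℝ) (f : A → ℝ) :
    avg S (fun x => c * f x) = c * avg S f := by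
  unfold avg
  rw [← mul_sum, mul_div_assoc]

theorem avg_sum {A B : Type} (S : Finset A) (t : Finset B) (f : B → A → ℝ) :
    avg S (fun x => ∑ b ∈ t, f b x) = ∑ b ∈ t, avg S (f b) := by
  unfold avg
  rw [sum_comm, sum_div]

theorem exists_le_avg {A : Type} {S : Finset A} (hS : S.Nonempty) (f : A → ℝ) :
    ∃ x ∈ S, f x ≤ avg S f := by
  by_contra h
  push Not at h
  have h1 : ∑ _x ∈ S, avg S f < ∑ x ∈ S, f x := sum_lt_sum_of_nonempty hS h
  rw [sum_const, nsmul_eq_mul] at h1
  have hc : (0 : ℝ) < S.card := by exact_mod_cast hS.card_pos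
  unfold avg at h1
  rw [mul_div_cancel₀ _ hc.ne'] at h1
  exact lt_irrefl _ h1

section Indep

variable [Fintype ι] [DecidableEq ι]

/-- independence of one coordinate and a function which does not depend on it -/
theorem avg_indep (S : ι → Finset Ω) (i : ι) (hi : (S i).Nonempty) (F : Ω → ℝ) (g : (ι → Ω) → ℝ)
    (hg : ∀ ω x, g (Function.update ω i x) = g ω) :
    avg (Fintype.piFinset S) (fun ω => F (ω i) * g ω) =
      avg (S i) F * avg (Fintype.piFinset S) g := by
  have hc : (0 : ℝ) < (S i).card := by exact_mod_cast hi.card_pos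
  have key : ∑ p ∈ Fintype.piFinset S ×ˢ S i, F (p.1 i) * g p.1 =
      ∑ p ∈ Fintype.piFinset S ×ˢ S i, F p.2 * g p.1 := by
    refine sum_nbij' (fun p => (Function.update p.1 i p.2, p.1 i))
      (fun p => (Function.update p.1 i p.2, p.1 i)) ?_ ?_ ?_ ?_ ?_
    · rintro ⟨ω, x⟩ hp
      rw [mem_product, Fintype.mem_piFinset] at hp ⊢
      refine ⟨fun j => ?_, hp.1 i⟩
      by_cases hj : j = i
      · subst hj
        simpa using hp.2
      · simpa [hj] using hp.1 j
    · rintro ⟨ω, x⟩ hp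
      rw [mem_product, Fintype.mem_piFinset] at hp ⊢
      refine ⟨fun j => ?_, hp.1 i⟩
      by_cases hj : j = i
      · subst hj
        simpa using hp.2
      · simpa [hj] using hp.1 j
    · rintro ⟨ω, x⟩ _
      simp
    · rintro ⟨ω, x⟩ _
      simp
    · rintro ⟨ω, x⟩ _
      simp only [hg]
  rw [sum_product, sum_product] at key
  simp only [sum_const, nsmul_eq_mul] at key
  have e1 : ∑ ω ∈ Fintype.piFinset S, ∑ x ∈ S i, F x * g ω =
      (∑ x ∈ S i, F x) * ∑ ω ∈ Fintype.piFinset S, g ω := by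
    rw [sum_mul_sum, sum_comm]
  rw [e1, ← mul_sum] at key
  unfold avg
  rw [div_mul_div_comm, ← key, mul_div_mul_left _ _ hc.ne']

/-- a mean over one coordinate -/
theorem avg_coord (S : ι → Finset Ω) (hS : ∀ i, (S i).Nonempty) (i : ι) (F : Ω → ℝ) :
    avg (Fintype.piFinset S) (fun ω => F (ω i)) = avg (S i) F := by
  have h := avg_indep S i (hS i) F (fun _ => 1) (fun _ _ => rfl)
  have hne : (Fintype.piFinset S).Nonempty := Fintype.piFinset_nonempty.2 hS
  have hc : ((Fintype.piFinset S).card : ℝ) ≠ 0 := by exact_mod_cast hne.card_pos.ne'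
  have h1 : avg (Fintype.piFinset S) (fun _ => (1 : ℝ)) = 1 := by
    unfold avg
    rw [sum_const, nsmul_eq_mul, mul_one, div_self hc]
  rw [h1, mul_one] at h
  simpa using h

/-- the constant in `rosenthal` -/
noncomputable def CR : ℕ → ℝ
  | 0 => 1
  | 1 => 1
  | (r + 2) => 2 ^ (r + 1) * (1 + 2 * CR (r + 1))

theorem CR_pos : ∀ r, 0 < CR r
  | 0 => by simp [CR]
  | 1 => by simp [CR]
  | (r + 2) => by
    have := CR_pos (r + 1)
    simp only [CR]
    positivity

theorem pow_mix {t a : ℝ} (ht : 0 ≤ t) (ha : 0 ≤ a) (r : ℕ) :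
    t ^ (r + 1) * a ≤ t ^ (r + 2) + t * a ^ (r + 1) := by
  rcases le_total t a with h | h
  · have h1 : t ^ (r + 1) * a ≤ t * a ^ (r + 1) := by
      have h2 : t ^ r ≤ a ^ r := pow_le_pow_left₀ ht h r
      calc t ^ (r + 1) * a = t ^ r * (t * a) := by ring
        _ ≤ a ^ r * (t * a) := mul_le_mul_of_nonneg_right h2 (by positivity)
        _ = t * a ^ (r + 1) := by ring
    have h3 : 0 ≤ t ^ (r + 2) := by positivity
    linarith
  · have h1 : t ^ (r + 1) * a ≤ t ^ (r + 2) := by
      calc t ^ (r + 1) * a ≤ t ^ (r + 1) * t := mul_le_mul_of_nonneg_left h (by positivity)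
        _ = t ^ (r + 2) := by ring
    have h3 : 0 ≤ t * a ^ (r + 1) := by positivity
    linarith

/-- moments of a sum of independent non-negative variables -/
theorem rosenthal (S : ι → Finset Ω) (hS : ∀ i, (S i).Nonempty) (T : ι → Ω → ℝ)
    (hT : ∀ i x, 0 ≤ T i x) {a : ℝ} (ha : ∑ i, avg (S i) (T i) ≤ a) :
    ∀ r : ℕ, avg (Fintype.piFinset S) (fun ω => (∑ i, T i (ω i)) ^ (r + 1)) ≤
      CR (r + 1) * (a ^ (r + 1) + ∑ i, avg (S i) (fun x => T i x ^ (r + 1))) := by
  have ha0 : 0 ≤ a := le_trans (sum_nonneg fun i _ => avg_nonneg fun x _ => hT i x) ha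
  intro r
  induction r with
  | zero =>
    simp only [zero_add, pow_one, CR, one_mul]
    rw [avg_sum]
    have h1 : ∑ i, avg (Fintype.piFinset S) (fun ω => T i (ω i)) = ∑ i, avg (S i) (T i) :=
      sum_congr rfl fun i _ => avg_coord S hS i (T i)
    rw [h1]
    have h2 : 0 ≤ ∑ i, avg (S i) (fun x => T i x) :=
      sum_nonneg fun i _ => avg_nonneg fun x _ => hT i x
    linarith
  | succ r ih =>
    have hSn : ∀ ω : ι → Ω, 0 ≤ ∑ i, T i (ω i) := fun ω => sum_nonneg fun i _ => hT i _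
    -- the rest without the coordinate i
    set Rst : ι → (ι → Ω) → ℝ := fun i ω => ∑ j ∈ univ.erase i, T j (ω j) with hRst
    have hR0 : ∀ i ω, 0 ≤ Rst i ω := fun i ω => sum_nonneg fun j _ => hT j _
    have hsplit : ∀ i ω, ∑ j, T j (ω j) = T i (ω i) + Rst i ω := by
      intro i ω
      rw [hRst]
      exact (add_sum_erase univ (fun j => T j (ω j)) (mem_univ i)).symm
    have hRle : ∀ i ω, Rst i ω ≤ ∑ j, T j (ω j) := by
      intro i ω
      rw [hsplit i ω]
      linarith [hT i (ω i)]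
    have hRupd : ∀ i ω x, Rst i (Function.update ω i x) = Rst i ω := by
      intro i ω x
      rw [hRst]
      refine sum_congr rfl fun j hj => ?_
      rw [Function.update_of_ne (ne_of_mem_erase hj)]
    have hpt : ∀ ω : ι → Ω, (∑ i, T i (ω i)) ^ (r + 2) ≤
        ∑ i, 2 ^ (r + 1) * (T i (ω i) ^ (r + 2) + T i (ω i) * Rst i ω ^ (r + 1)) := by
      intro ω
      calc (∑ i, T i (ω i)) ^ (r + 2) = ∑ i, T i (ω i) * (∑ j, T j (ω j)) ^ (r + 1) := by
            rw [← sum_mul, pow_succ' _ (r + 1)]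
        _ ≤ _ := by
            refine sum_le_sum fun i _ => ?_
            rw [hsplit i ω]
            have h1 : (T i (ω i) + Rst i ω) ^ (r + 1) ≤
                2 ^ (r + 1) * (T i (ω i) ^ (r + 1) + Rst i ω ^ (r + 1)) := by
              have h2 := add_pow_le (hT i (ω i)) (hR0 i ω) (r + 1)
              refine h2.trans ?_
              refine mul_le_mul_of_nonneg_right ?_ (by have := hT i (ω i); have := hR0 i ω; positivity)
              exact pow_le_pow_right₀ (by norm_num) (by omega)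
            calc T i (ω i) * (T i (ω i) + Rst i ω) ^ (r + 1)
                ≤ T i (ω i) * (2 ^ (r + 1) * (T i (ω i) ^ (r + 1) + Rst i ω ^ (r + 1))) :=
                  mul_le_mul_of_nonneg_left h1 (hT i _)
              _ = _ := by ring
    have hmean : ∀ i, avg (Fintype.piFinset S) (fun ω => T i (ω i) * Rst i ω ^ (r + 1)) ≤
        avg (S i) (T i) * avg (Fintype.piFinset S) (fun ω => (∑ j, T j (ω j)) ^ (r + 1)) := by
      intro i
      rw [avg_indep S i (hS i) (T i) (fun ω => Rst i ω ^ (r + 1))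
        (fun ω x => by simp only [hRupd])]
      refine mul_le_mul_of_nonneg_left ?_ (avg_nonneg fun x _ => hT i x)
      exact avg_mono fun ω _ => pow_le_pow_left₀ (hR0 i ω) (hRle i ω) _
    set E1 := avg (Fintype.piFinset S) (fun ω => (∑ j, T j (ω j)) ^ (r + 1)) with hE1
    have hE1n : 0 ≤ E1 := avg_nonneg fun ω _ => pow_nonneg (hSn ω) _
    set B := ∑ i, avg (S i) (fun x => T i x ^ (r + 2)) with hB
    have hmix : a * ∑ i, avg (S i) (fun x => T i x ^ (r + 1)) ≤ B + a ^ (r + 2) := by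
      calc a * ∑ i, avg (S i) (fun x => T i x ^ (r + 1))
          = ∑ i, avg (S i) (fun x => a * T i x ^ (r + 1)) := by
            rw [mul_sum]
            exact sum_congr rfl fun i _ => (avg_mul _ _ _).symm
        _ ≤ ∑ i, avg (S i) (fun x => T i x ^ (r + 2) + a ^ (r + 1) * T i x) := by
            refine sum_le_sum fun i _ => avg_mono fun x _ => ?_
            have := pow_mix (hT i x) ha0 r
            linarith
        _ = B + a ^ (r + 1) * ∑ i, avg (S i) (T i) := by
            rw [hB, mul_sum, ← sum_add_distrib]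
            refine sum_congr rfl fun i _ => ?_
            rw [avg_add, avg_mul]
        _ ≤ B + a ^ (r + 1) * a := by
            have := mul_le_mul_of_nonneg_left ha (pow_nonneg ha0 (r + 1))
            linarith
        _ = B + a ^ (r + 2) := by ring
    calc avg (Fintype.piFinset S) (fun ω => (∑ i, T i (ω i)) ^ (r + 1 + 1))
        ≤ avg (Fintype.piFinset S) (fun ω => ∑ i, 2 ^ (r + 1) *
            (T i (ω i) ^ (r + 2) + T i (ω i) * Rst i ω ^ (r + 1))) :=
          avg_mono fun ω _ => hpt ω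
      _ = ∑ i, 2 ^ (r + 1) * (avg (Fintype.piFinset S) (fun ω => T i (ω i) ^ (r + 2)) +
            avg (Fintype.piFinset S) (fun ω => T i (ω i) * Rst i ω ^ (r + 1))) := by
          rw [avg_sum]
          refine sum_congr rfl fun i _ => ?_
          rw [avg_mul, avg_add]
      _ ≤ ∑ i, 2 ^ (r + 1) * (avg (S i) (fun x => T i x ^ (r + 2)) + avg (S i) (T i) * E1) := by
          refine sum_le_sum fun i _ => ?_
          refine mul_le_mul_of_nonneg_left ?_ (by positivity)
          refine add_le_add (le_of_eq ?_) (hmean i)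
          exact avg_coord S hS i (fun x => T i x ^ (r + 2))
      _ = 2 ^ (r + 1) * (B + (∑ i, avg (S i) (T i)) * E1) := by
          rw [← mul_sum, sum_add_distrib, ← sum_mul]
      _ ≤ 2 ^ (r + 1) * (B + a * (CR (r + 1) * (a ^ (r + 1) +
            ∑ i, avg (S i) (fun x => T i x ^ (r + 1))))) := by
          refine mul_le_mul_of_nonneg_left ?_ (by positivity)
          refine add_le_add le_rfl ?_
          exact mul_le_mul ha ih hE1n ha0
      _ = 2 ^ (r + 1) * (B + CR (r + 1) * (a ^ (r + 2) +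
            a * ∑ i, avg (S i) (fun x => T i x ^ (r + 1)))) := by ring
      _ ≤ 2 ^ (r + 1) * (B + CR (r + 1) * (a ^ (r + 2) + (B + a ^ (r + 2)))) := by
          refine mul_le_mul_of_nonneg_left ?_ (by positivity)
          refine add_le_add le_rfl (mul_le_mul_of_nonneg_left ?_ (CR_pos _).le)
          exact add_le_add le_rfl hmix
      _ ≤ CR (r + 1 + 1) * (a ^ (r + 1 + 1) + B) := by
          have hB0 : 0 ≤ B := sum_nonneg fun i _ => avg_nonneg fun x _ => pow_nonneg (hT i x) _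
          have hc := CR_pos (r + 1)
          have hp : 0 ≤ a ^ (r + 2) := pow_nonneg ha0 _
          have e : CR (r + 1 + 1) = 2 ^ (r + 1) * (1 + 2 * CR (r + 1)) := rfl
          rw [e]
          have h2 : (0 : ℝ) < 2 ^ (r + 1) := by positivity
          rw [mul_assoc]
          refine mul_le_mul_of_nonneg_left ?_ h2.le
          nlinarith [mul_nonneg hc.le hB0, mul_nonneg hc.le hp]

/-- the good outcomes of one variable -/
theorem good_card {A : Type} {R : Type} [Fintype R] (S : Finset A) (Z : R → A → ℝ)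
    (hZ : ∀ r x, 0 ≤ Z r x) (z : R → ℝ) (hz : ∀ r, avg S (Z r) ≤ z r) (hR : Fintype.card R ≤ 3)
    (hS : S.Nonempty) [DecidablePred fun x => ∀ r, Z r x ≤ 8 * z r] :
    5 * (S.card : ℝ) ≤ 8 * ((S.filter fun x => ∀ r, Z r x ≤ 8 * z r).card : ℝ) := by
  classical
  have hc : (0 : ℝ) < S.card := by exact_mod_cast hS.card_pos
  have hbad : ∀ r, 8 * ((S.filter fun x => 8 * z r < Z r x).card : ℝ) ≤ S.card := by
    intro r
    have hz0 : 0 ≤ z r := le_trans (avg_nonneg fun x _ => hZ r x) (hz r)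
    have h1 : ((S.filter fun x => 8 * z r < Z r x).card : ℝ) * (8 * z r) ≤
        ∑ x ∈ S.filter fun x => 8 * z r < Z r x, Z r x := by
      rw [← nsmul_eq_mul]
      exact card_nsmul_le_sum _ _ _ fun x hx => (mem_filter.1 hx).2.le
    have h2 : ∑ x ∈ S.filter fun x => 8 * z r < Z r x, Z r x ≤ ∑ x ∈ S, Z r x :=
      sum_le_sum_of_subset_of_nonneg (filter_subset _ _) fun x _ _ => hZ r x
    have h3 : ∑ x ∈ S, Z r x ≤ z r * S.card := by
      have := hz r
      unfold avg at this
      rwa [div_le_iff₀ hc] at this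
    rcases hz0.eq_or_lt with h0 | h0
    · have h4 : (S.filter fun x => 8 * z r < Z r x) = ∅ := by
        rw [filter_eq_empty_iff]
        intro x hx
        rw [← h0, mul_zero, not_lt]
        have h5 : Z r x ≤ ∑ x ∈ S, Z r x := single_le_sum (fun x _ => hZ r x) hx
        rw [← h0, zero_mul] at h3
        linarith
      rw [h4, card_empty]
      simp
    · have h6 : ((S.filter fun x => 8 * z r < Z r x).card : ℝ) * (8 * z r) ≤ z r * S.card :=
        h1.trans (h2.trans h3)
      have h7 : z r * (8 * ((S.filter fun x => 8 * z r < Z r x).card : ℝ)) ≤ z r * S.card := by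
        linarith
      exact le_of_mul_le_mul_left h7 h0
  have hsub : S.filter (fun x => ¬ ∀ r, Z r x ≤ 8 * z r) ⊆
      univ.biUnion fun r => S.filter fun x => 8 * z r < Z r x := by
    intro x hx
    rw [mem_filter] at hx
    obtain ⟨hxS, hx⟩ := hx
    push Not at hx
    obtain ⟨r, hr⟩ := hx
    exact mem_biUnion.2 ⟨r, mem_univ _, mem_filter.2 ⟨hxS, hr⟩⟩
  have h8 : 8 * ((S.filter fun x => ¬ ∀ r, Z r x ≤ 8 * z r).card : ℝ) ≤ 3 * S.card := by
    have h9 : ((S.filter fun x => ¬ ∀ r, Z r x ≤ 8 * z r).card : ℝ) ≤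
        ∑ r, ((S.filter fun x => 8 * z r < Z r x).card : ℝ) := by
      exact_mod_cast (card_le_card hsub).trans card_biUnion_le
    have h10 : ∑ r, 8 * ((S.filter fun x => 8 * z r < Z r x).card : ℝ) ≤ ∑ _r : R, (S.card : ℝ) :=
      sum_le_sum fun r _ => hbad r
    rw [← mul_sum, sum_const, nsmul_eq_mul, card_univ] at h10
    have h11 : (Fintype.card R : ℝ) * S.card ≤ 3 * S.card :=
      mul_le_mul_of_nonneg_right (by exact_mod_cast hR) hc.le
    linarith
  have h12 := card_filter_add_card_filter_not (s := S) (fun x => ∀ r, Z r x ≤ 8 * z r)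
  have h13 : ((S.filter fun x => ∀ r, Z r x ≤ 8 * z r).card : ℝ) +
      ((S.filter fun x => ¬ ∀ r, Z r x ≤ 8 * z r).card : ℝ) = S.card := by
    exact_mod_cast h12
  linarith

theorem avg_filter_le {A : Type} {S G : Finset A} (hG : G ⊆ S) (hS : S.Nonempty)
    (hc : 5 * (S.card : ℝ) ≤ 8 * (G.card : ℝ)) {f : A → ℝ} (hf : ∀ x, 0 ≤ f x) :
    avg G f ≤ 8 / 5 * avg S f := by
  have hSc : (0 : ℝ) < S.card := by exact_mod_cast hS.card_pos
  have hGc : (0 : ℝ) < G.card := by linarith
  have h1 : ∑ x ∈ G, f x ≤ ∑ x ∈ S, f x :=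
    sum_le_sum_of_subset_of_nonneg hG fun x _ _ => hf x
  have h2 : 0 ≤ ∑ x ∈ S, f x := sum_nonneg fun x _ => hf x
  unfold avg
  rw [div_le_iff₀ hGc]
  calc ∑ x ∈ G, f x ≤ ∑ x ∈ S, f x := h1
    _ = (∑ x ∈ S, f x) / S.card * S.card := by rw [div_mul_cancel₀ _ hSc.ne']
    _ ≤ (∑ x ∈ S, f x) / S.card * (8 / 5 * G.card) :=
        mul_le_mul_of_nonneg_left (by linarith) (div_nonneg h2 hSc.le)
    _ = 8 / 5 * ((∑ x ∈ S, f x) / S.card) * G.card := by ring

/-- the rounding lemma (R) of note 2869; exponent `lam = r + 1` -/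
theorem rounding {R : Type} [Fintype R] (hR : Fintype.card R ≤ 3) (S : ι → Finset Ω)
    (hS : ∀ i, (S i).Nonempty) (Ks : Finset K) (T : ι → K → Ω → ℝ) (hT : ∀ i k x, 0 ≤ T i k x)
    (a : K → ℝ) (hTa : ∀ k ∈ Ks, ∑ i, avg (S i) (T i k) ≤ a k)
    (Z : ι → R → Ω → ℝ) (hZ : ∀ i r x, 0 ≤ Z i r x) (z : ι → R → ℝ)
    (hz : ∀ i r, avg (S i) (Z i r) ≤ z i r) (r : ℕ) (β : ι → ℝ)
    (hβ : ∀ i, ∀ x ∈ S i, (∀ q, Z i q x ≤ 8 * z i q) → ∑ k ∈ Ks, T i k x ^ (r + 1) ≤ β i) :
    ∃ ω : ι → Ω, (∀ i, ω i ∈ S i) ∧ (∀ i q, Z i q (ω i) ≤ 8 * z i q) ∧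
      ∑ k ∈ Ks, (∑ i, T i k (ω i)) ^ (r + 1) ≤
        (CR (r + 1) * (8 / 5) ^ (r + 1)) * (∑ k ∈ Ks, a k ^ (r + 1) + ∑ i, β i) := by
  classical
  set G : ι → Finset Ω := fun i => (S i).filter fun x => ∀ q, Z i q x ≤ 8 * z i q with hG
  have hGS : ∀ i, G i ⊆ S i := fun i => filter_subset _ _
  have hGc : ∀ i, 5 * ((S i).card : ℝ) ≤ 8 * ((G i).card : ℝ) := fun i =>
    good_card (S i) (Z i) (hZ i) (z i) (hz i) hR (hS i)
  have hGn : ∀ i, (G i).Nonempty := by
    intro i
    have h1 : (0 : ℝ) < (S i).card := by exact_mod_cast (hS i).card_pos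
    have h2 : (0 : ℝ) < (G i).card := by linarith [hGc i]
    exact card_pos.1 (by exact_mod_cast h2)
  have ha0 : ∀ k ∈ Ks, 0 ≤ a k := fun k hk =>
    le_trans (sum_nonneg fun i _ => avg_nonneg fun x _ => hT i k x) (hTa k hk)
  have hβ0 : ∀ i, 0 ≤ β i := by
    intro i
    obtain ⟨x, hx⟩ := hGn i
    rw [hG, mem_filter] at hx
    exact le_trans (sum_nonneg fun k _ => pow_nonneg (hT i k x) _) (hβ i x hx.1 hx.2)
  have hmean : avg (Fintype.piFinset G) (fun ω => ∑ k ∈ Ks, (∑ i, T i k (ω i)) ^ (r + 1)) ≤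
      (CR (r + 1) * (8 / 5) ^ (r + 1)) * (∑ k ∈ Ks, a k ^ (r + 1) + ∑ i, β i) := by
    rw [avg_sum]
    calc ∑ k ∈ Ks, avg (Fintype.piFinset G) (fun ω => (∑ i, T i k (ω i)) ^ (r + 1))
        ≤ ∑ k ∈ Ks, CR (r + 1) * ((8 / 5 * a k) ^ (r + 1) +
            ∑ i, avg (G i) (fun x => T i k x ^ (r + 1))) := by
          refine sum_le_sum fun k hk => ?_
          refine rosenthal G hGn (fun i => T i k) (fun i x => hT i k x) ?_ r
          calc ∑ i, avg (G i) (T i k) ≤ ∑ i, 8 / 5 * avg (S i) (T i k) :=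
                sum_le_sum fun i _ => avg_filter_le (hGS i) (hS i) (hGc i) (hT i k)
            _ = 8 / 5 * ∑ i, avg (S i) (T i k) := by rw [← mul_sum]
            _ ≤ 8 / 5 * a k := mul_le_mul_of_nonneg_left (hTa k hk) (by norm_num)
      _ = CR (r + 1) * ((8 / 5) ^ (r + 1) * ∑ k ∈ Ks, a k ^ (r + 1) +
            ∑ i, avg (G i) (fun x => ∑ k ∈ Ks, T i k x ^ (r + 1))) := by
          rw [← mul_sum, sum_add_distrib]
          congr 2
          · rw [mul_sum]
            exact sum_congr rfl fun k _ => by rw [mul_pow]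
          · rw [sum_comm]
            exact sum_congr rfl fun i _ => (avg_sum _ _ _).symm
      _ ≤ CR (r + 1) * ((8 / 5) ^ (r + 1) * ∑ k ∈ Ks, a k ^ (r + 1) +
            ∑ i, (8 / 5) ^ (r + 1) * β i) := by
          refine mul_le_mul_of_nonneg_left ?_ (CR_pos _).le
          refine add_le_add le_rfl (sum_le_sum fun i _ => ?_)
          have h1 : avg (G i) (fun x => ∑ k ∈ Ks, T i k x ^ (r + 1)) ≤ β i := by
            have hc : (0 : ℝ) < (G i).card := by exact_mod_cast (hGn i).card_pos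
            unfold avg
            rw [div_le_iff₀ hc, mul_comm, ← nsmul_eq_mul]
            refine sum_le_card_nsmul _ _ _ fun x hx => ?_
            rw [hG, mem_filter] at hx
            exact hβ i x hx.1 hx.2
          have h2 : β i ≤ (8 / 5) ^ (r + 1) * β i := by
            have h3 : (1 : ℝ) ≤ (8 / 5) ^ (r + 1) := one_le_pow₀ (by norm_num)
            nlinarith [hβ0 i]
          exact h1.trans h2
      _ = _ := by rw [← mul_sum]; ring
  obtain ⟨ω, hω, hle⟩ := exists_le_avg (Fintype.piFinset_nonempty.2 hGn)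
    (fun ω => ∑ k ∈ Ks, (∑ i, T i k (ω i)) ^ (r + 1))
  rw [Fintype.mem_piFinset] at hω
  refine ⟨ω, fun i => hGS i (hω i), fun i => ?_, hle.trans hmean⟩
  have := hω i
  rw [hG, mem_filter] at this
  exact this.2

end Indep

end Pool.Agent.H15.FK
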